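import Pool.Agent.R321.QB5
import Pool.Agent.R846.UL.EvI

/-! # Two blocks and a convex function -/

set_option autoImplicit false

open Filter Topology Set

namespace Pool.Agent.R846.SP

open SG (ord NZ)
open Pool.Agent.R321.QA (ct ct_eq ct_le ct_nonneg ct_mono)
open Pool.Agent.Y743.CL (Ph Ph_mono Ph_le_one Ph_nonneg lm lm_nonneg Ev unf_hi)
open Pool.Agent.R846.UL (cn cn_mono cn_union cn_lt cn_biUnion cn_fin cn_nonneg ordlog)

/-- the unfolded ordinates -/
noncomputable def WW (k : ℕ) : ℝ := ord k * Real.log (ord k) / (2 * Real.pi)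

lemma Ev_iff (x : ℝ) (r n : ℕ) : Ev x r n ↔ WW (n + r) - WW n ≤ r + x * lm r := Iff.rfl

/-- the law of large numbers in one block -/
def Law (e : ℝ) (m p : ℕ) : Prop := ∀ x : ℝ, |ct (fun k => Ev x m k) p m - Ph x * m| ≤ e * m

lemma law_ex {e : ℝ} {m p : ℕ} (hm : 0 < m) (h : Law e m p) (he : e < Ph 1) :
    ∃ j < m, WW (p + j + m) - WW (p + j) ≤ m + lm m := by
  classical
  have hm' : (0 : ℝ) < m := by exact_mod_cast hm
  have h1 := (abs_le.mp (h 1)).1
  have h2 : 0 < ct (fun k => Ev 1 m k) p m := by nlinarith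
  rw [ct_eq] at h2
  have h3 : 0 < ((Finset.Ico p (p + m)).filter (fun k => Ev 1 m k)).card := by exact_mod_cast h2
  obtain ⟨k, hk⟩ := Finset.card_pos.mp h3
  rw [Finset.mem_filter, Finset.mem_Ico] at hk
  obtain ⟨⟨k1, k2⟩, k3⟩ := hk
  obtain ⟨j, rfl⟩ := Nat.exists_eq_add_of_le k1
  refine ⟨j, by omega, ?_⟩
  rw [Ev_iff, one_mul] at k3
  exact k3

lemma law_not {e X : ℝ} {m p : ℕ} (hm : 0 < m) (h : Law e m p) (he : e < 1 - Ph X)
    (hall : ∀ j < m, WW (p + j + m) - WW (p + j) ≤ m + X * lm m) : False := by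
  classical
  have hm' : (0 : ℝ) < m := by exact_mod_cast hm
  have h1 := (abs_le.mp (h X)).2
  have h2 : ct (fun k => Ev X m k) p m = m := by
    rw [ct_eq, Finset.filter_true_of_mem, Nat.card_Ico, Nat.add_sub_cancel_left]
    intro k hk
    rw [Finset.mem_Ico] at hk
    obtain ⟨j, rfl⟩ := Nat.exists_eq_add_of_le hk.1
    exact (Ev_iff _ _ _).mpr (hall j (by omega))
  rw [h2] at h1
  nlinarith

lemma mono_steps {D : ℕ → ℝ} {a b : ℕ} (h : ∀ i, a ≤ i → i < b → D i ≤ D (i + 1)) :
    ∀ i j, a ≤ i → i ≤ j → j ≤ b → D i ≤ D j := by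
  intro i j hi hij
  induction j, hij using Nat.le_induction with
  | base => intro _; exact le_rfl
  | succ j hij ih =>
    intro hj
    exact (ih (by omega)).trans (h j (by omega) (by omega))

/-- a convex function has increasing increments -/
lemma incr {F : ℕ → ℝ} {m : ℕ} (hm : 0 < m)
    (h : ∀ j, j + 2 < 3 * m → 2 * F (j + 1) ≤ F j + F (j + 2)) :
    ∀ i j, i ≤ j → j < 2 * m → F (i + m) - F i ≤ F (j + m) - F j := by
  have h1 : ∀ i j, 0 ≤ i → i ≤ j → j ≤ 3 * m - 2 → F (i + 1) - F i ≤ F (j + 1) - F j := by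
    refine mono_steps (D := fun i => F (i + 1) - F i) fun i _ hi => ?_
    have h2 := h i (by omega)
    change F (i + 1) - F i ≤ F (i + 1 + 1) - F (i + 1)
    have e : i + 1 + 1 = i + 2 := rfl
    rw [e]
    linarith
  intro i j hij hj
  have h2 : ∀ i j, 0 ≤ i → i ≤ j → j ≤ 2 * m - 1 → F (i + m) - F i ≤ F (j + m) - F j := by
    refine mono_steps (D := fun i => F (i + m) - F i) fun i _ hi => ?_
    have h3 := h1 i (i + m) (by omega) (by omega) (by omega)
    change F (i + m) - F i ≤ F (i + 1 + m) - F (i + 1)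
    have e : i + 1 + m = i + m + 1 := by ring
    rw [e]
    linarith
  exact h2 i j (by omega) hij (by omega)

/-- **two blocks with the normal law and a convex or concave function near the ordinates** -/
theorem two_blocks {e C E : ℝ} {m p : ℕ} (hm : 0 < m) (hE : E ≤ C * lm m)
    (he1 : e < Ph 1) (he2 : e < 1 - Ph (1 + 4 * C)) (hP : Law e m p) (hQ : Law e m (p + m))
    (F : ℕ → ℝ) (hF : ∀ j < 3 * m, |WW (p + j) - F j| ≤ E)
    (hs : (∀ j, j + 2 < 3 * m → 2 * F (j + 1) ≤ F j + F (j + 2)) ∨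
      (∀ j, j + 2 < 3 * m → F j + F (j + 2) ≤ 2 * F (j + 1))) : False := by
  have key : ∀ i j, i < 2 * m → j < 2 * m → F (i + m) - F i ≤ F (j + m) - F j →
      WW (p + j + m) - WW (p + j) ≤ m + lm m →
      WW (p + i + m) - WW (p + i) ≤ m + (1 + 4 * C) * lm m := by
    intro i j hi hj h1 h2
    have a1 := abs_le.mp (hF (i + m) (by omega))
    have a2 := abs_le.mp (hF i (by omega))
    have a3 := abs_le.mp (hF (j + m) (by omega))
    have a4 := abs_le.mp (hF j (by omega))
    rw [← add_assoc] at a1 a3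
    linarith [a1.1, a1.2, a2.1, a2.2, a3.1, a3.2, a4.1, a4.2]
  rcases hs with hs | hs
  · obtain ⟨j, hj, h1⟩ := law_ex hm hQ he1
    refine law_not hm hP he2 fun i hi => ?_
    refine key i (m + j) (by omega) (by omega) (incr hm hs i (m + j) (by omega) (by omega)) ?_
    rw [← add_assoc]
    exact h1
  · obtain ⟨j, hj, h1⟩ := law_ex hm hP he1
    refine law_not hm hQ he2 fun i hi => ?_
    have h3 := incr (F := fun k => -F k) hm (fun k hk => by
      have := hs k hk
      linarith) j (m + i) (by omega) (by omega)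
    have h4 := key (m + i) j (by omega) (by omega) (by linarith) h1
    rw [← add_assoc] at h4
    exact h4

/-- one of the pieces contains a long interval -/
lemma pieces {b : ℕ → ℕ} {d m : ℕ} (hd : 0 < d) (hb0 : b 0 = 0) (hbd : 3 * m * d ≤ b d) :
    ∃ i < d, b i ≤ 3 * m * i ∧ 3 * m * (i + 1) ≤ b (i + 1) := by
  by_contra hcon
  push Not at hcon
  have h : ∀ i, i ≤ d → b i ≤ 3 * m * i ∧ (0 < i → b i < 3 * m * i) := by
    intro i
    induction i with
    | zero => intro _; rw [hb0]; exact ⟨Nat.zero_le _, fun h => absurd h (lt_irrefl _)⟩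
    | succ i ih =>
      intro hi
      have h1 := hcon i (by omega) (ih (by omega)).1
      exact ⟨h1.le, fun _ => h1⟩
  exact absurd ((h d le_rfl).2 hd) (not_lt.mpr hbd)

/-- the unfolding is almost linear on a short run -/
lemma unf_lin {u v : ℝ} (hu : 0 < u) (huv : u ≤ v) (h : (v - u) ^ 2 ≤ u) :
    |v * Real.log v / (2 * Real.pi) - (u * Real.log u / (2 * Real.pi) +
      (v - u) * ((Real.log u + 1) / (2 * Real.pi)))| ≤ 1 := by
  have hpi := Real.pi_gt_three
  have hv : 0 < v := hu.trans_le huv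
  have h1 := unf_hi hu huv
  have h2 : Real.log v ≤ Real.log u + (v - u) / u := by
    have h3 := Real.log_le_sub_one_of_pos (div_pos hv hu)
    rw [Real.log_div hv.ne' hu.ne'] at h3
    have : v / u - 1 = (v - u) / u := by field_simp
    linarith
  have h4 : 1 - u / v ≤ Real.log v - Real.log u := by
    have h3 := Real.log_le_sub_one_of_pos (div_pos hu hv)
    rw [Real.log_div hu.ne' hv.ne'] at h3
    linarith
  have hd : 0 ≤ v - u := by linarith
  have hup : v * Real.log v - u * Real.log u ≤ (v - u) * (Real.log u + 1) + 1 := by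
    have h5 : (v - u) * Real.log v ≤ (v - u) * (Real.log u + (v - u) / u) :=
      mul_le_mul_of_nonneg_left h2 hd
    have h6 : (v - u) * ((v - u) / u) ≤ 1 := by
      rw [← mul_div_assoc, div_le_one hu]
      nlinarith
    nlinarith
  have hlo : (v - u) * (Real.log u + 1) - 1 ≤ v * Real.log v - u * Real.log u := by
    have h5 : v * (1 - u / v) ≤ v * (Real.log v - Real.log u) :=
      mul_le_mul_of_nonneg_left h4 hv.le
    have h6 : v * (1 - u / v) = v - u := by field_simp
    nlinarith
  have e : v * Real.log v / (2 * Real.pi) - (u * Real.log u / (2 * Real.pi) +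
      (v - u) * ((Real.log u + 1) / (2 * Real.pi))) =
      (v * Real.log v - u * Real.log u - (v - u) * (Real.log u + 1)) / (2 * Real.pi) := by
    field_simp
    ring
  rw [e, abs_div, abs_of_pos (by positivity : 0 < 2 * Real.pi), div_le_one (by positivity), abs_le]
  constructor <;> linarith

end Pool.Agent.R846.SP
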