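import Pool.Agent.R846.SP.A

/-! # The theorem on convex and concave functions -/

set_option autoImplicit false

open Filter Topology Set MeasureTheory

namespace Pool.Agent.R846.SP

open SG (ord NZ)
open Pool.Agent.R321.QA (ct ct_eq ct_le ct_nonneg ct_mono quenched)
open Pool.Agent.Y743.CL (gs Ph Ph_mono Ph_le_one Ph_nonneg lm lm_nonneg Ev unf_hi gs_bot gs_top gs_compl Ph_lip)
open Pool.Agent.R846.UL (cn cn_mono cn_union cn_lt cn_biUnion cn_fin cn_nonneg ordlog cn_eq)
open Pool.Agent.R320.CL (NZ_NN)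

/-- upper and lower bounds for the ordinates -/
lemma ord_size : ∃ n0 : ℕ, 1 ≤ n0 ∧ ∀ n : ℕ, n0 ≤ n → ord n ≤ n ∧ (n : ℝ) ≤ ord n ^ 2 ∧ 3 ≤ ord n := by
  obtain ⟨n1, hn1, h1⟩ := ordlog
  obtain ⟨C, T0, hC, hT0, h⟩ := Pool.Agent.W54.TCF.NT_asymp
  have hpi := Real.pi_gt_three
  have hpi4 := Real.pi_lt_four
  obtain ⟨x1, hx1⟩ := (Real.tendsto_log_atTop.eventually_ge_atTop
    (16 * Real.pi)).exists_forall_of_atTop
  obtain ⟨n2, hn2⟩ := (SG.ord_tendsto.eventually_ge_atTop
    (max (max T0 x1) (max 4 (2 * C)))).exists_forall_of_atTop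
  refine ⟨max n1 n2, hn1.trans (le_max_left _ _), fun n hn => ?_⟩
  have ha := (le_max_left _ _).trans hn
  have hx := hn2 n ((le_max_right _ _).trans hn)
  set x := ord n with hxd
  have hxT0 : T0 ≤ x := ((le_max_left _ _).trans (le_max_left _ _)).trans hx
  have hxx1 : x1 ≤ x := ((le_max_right _ _).trans (le_max_left _ _)).trans hx
  have hx4 : 4 ≤ x := ((le_max_left _ _).trans (le_max_right _ _)).trans hx
  have hxC : 2 * C ≤ x := ((le_max_right _ _).trans (le_max_right _ _)).trans hx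
  refine ⟨?_, ?_, by linarith⟩
  · have h2 := h1 n ha
    rw [← hxd, div_le_iff₀ (by positivity)] at h2
    have h3 := hx1 x hxx1
    have h4 : x * (16 * Real.pi) ≤ x * Real.log x := mul_le_mul_of_nonneg_left h3 (by linarith)
    have h5 : x * (16 * Real.pi) ≤ n * (16 * Real.pi) := by linarith
    exact le_of_mul_le_mul_right h5 (by positivity)
  · have h2 := (abs_le.mp (h _ hxT0)).2
    rw [← NZ_NN] at h2
    have h3 : (n : ℝ) ≤ NZ x := by
      have := SG.le_NZ_ord (hn1.trans ha)
      rw [hxd]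
      exact_mod_cast this
    have h4 : Real.log x ≤ x := by
      have := Real.log_le_sub_one_of_pos (by linarith : 0 < x)
      linarith
    have h5 : x * Real.log x / (2 * Real.pi) ≤ x ^ 2 / 6 := by
      rw [div_le_div_iff₀ (by positivity) (by norm_num)]
      nlinarith
    nlinarith

/-- sums of the lengths of runs -/
lemma sum_span (N : ℕ) : ∀ L : ℕ, ∑ n ∈ Finset.Icc 1 N, (ord (n + L) - ord n) ≤ L * ord (N + L) := by
  intro L
  induction L with
  | zero => simp
  | succ L ih =>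
    have e1 : ∑ n ∈ Finset.Icc 1 N, (ord (n + (L + 1)) - ord n) =
        ∑ n ∈ Finset.Icc 1 N, (ord (n + L) - ord n) +
        ∑ n ∈ Finset.Icc 1 N, (ord (n + L + 1) - ord (n + L)) := by
      rw [← Finset.sum_add_distrib]
      refine Finset.sum_congr rfl fun n _ => ?_
      rw [← add_assoc]
      ring
    have e2 : ∀ N : ℕ, ∑ n ∈ Finset.Icc 1 N, (ord (n + L + 1) - ord (n + L)) =
        ord (N + L + 1) - ord (L + 1) := by
      intro N
      induction N with
      | zero => simp
      | succ N ihN =>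
        rw [Finset.sum_Icc_succ_top (by omega), ihN]
        have : N + 1 + L = N + L + 1 := by ring
        rw [this]
        ring
    rw [e1, e2]
    have h1 : 0 < ord (L + 1) := SG.ord_pos (by omega)
    have h2 : (L : ℝ) * ord (N + L) ≤ L * ord (N + (L + 1)) := by
      rcases Nat.eq_zero_or_pos L with h | h
      · rw [h]; simp
      · exact mul_le_mul_of_nonneg_left (SG.ord_mono (by omega) (by omega)) (Nat.cast_nonneg _)
    have e3 : N + L + 1 = N + (L + 1) := by ring
    rw [e3]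
    push_cast
    linarith

/-- most runs are short -/
lemma span {η : ℝ} (hη : 0 < η) : ∃ N0 : ℕ, ∀ N : ℕ, N0 ≤ N → ∀ L : ℕ, 1 ≤ L →
    (L : ℝ) ≤ Real.log N → cn N {n | ord n < (ord (n + L) - ord n) ^ 2} ≤ η * N := by
  classical
  obtain ⟨n0, hn0, hsz⟩ := ord_size
  have hlim : Tendsto (fun x : ℝ => Real.log x ^ 4 / (1 * x + 0)) atTop (𝓝 0) :=
    Real.tendsto_pow_log_div_mul_add_atTop 1 0 4 one_ne_zero
  set c : ℝ := η / 4 / (64 ^ 2 / η ^ 4) with hc
  have hc0 : 0 < c := by positivity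
  obtain ⟨x1, hx1⟩ := (hlim.eventually_le_const hc0).exists_forall_of_atTop
  obtain ⟨N1, hN1⟩ := exists_nat_ge (max x1 (max (4 * n0 / η) (4 / η)))
  refine ⟨max N1 (max n0 1), fun N hN L hL hLN => ?_⟩
  have hNN1 : (N1 : ℝ) ≤ N := by exact_mod_cast (le_max_left _ _).trans hN
  have hNn0 : n0 ≤ N := ((le_max_left _ _).trans (le_max_right _ _)).trans hN
  have hN1' : 1 ≤ N := ((le_max_right _ _).trans (le_max_right _ _)).trans hN
  have hNpos : (0 : ℝ) < N := by exact_mod_cast hN1'
  have hNx1 : x1 ≤ N := (le_max_left _ _).trans (hN1.trans hNN1)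
  have hNn : 4 * n0 / η ≤ N := ((le_max_left _ _).trans (le_max_right _ _)).trans (hN1.trans hNN1)
  have hN4 : 4 / η ≤ N := ((le_max_right _ _).trans (le_max_right _ _)).trans (hN1.trans hNN1)
  have hlog := hx1 N hNx1
  rw [one_mul, add_zero, div_le_iff₀ hNpos] at hlog
  have hLpos : (0 : ℝ) < L := by exact_mod_cast hL
  have hlogN : Real.log N ≤ N := by
    have := Real.log_le_sub_one_of_pos hNpos
    linarith
  obtain ⟨K, hK⟩ : ∃ K : ℝ, K = 8 * L / η := ⟨_, rfl⟩
  have hK0 : 0 < K := by rw [hK]; positivity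
  obtain ⟨n1, hn1⟩ : ∃ n1 : ℕ, n1 = ⌈η * N / 4⌉₊ := ⟨_, rfl⟩
  have hn1a : η * N / 4 ≤ n1 := by rw [hn1]; exact Nat.le_ceil _
  have hn1b : (n1 : ℝ) < η * N / 4 + 1 := by rw [hn1]; exact Nat.ceil_lt_add_one (by positivity)
  have hsub : cn N {n | ord n < (ord (n + L) - ord n) ^ 2} ≤
      cn N ({n | n < n1} ∪ {n | K < ord (n + L) - ord n}) := by
    refine cn_mono fun n hn hnN hb => ?_
    by_contra hcon
    rw [Set.mem_union, not_or] at hcon
    obtain ⟨h1, h2⟩ := hcon
    simp only [Set.mem_setOf_eq, not_lt] at h1 h2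
    have hbb : ord n < (ord (n + L) - ord n) ^ 2 := hb
    have h3 : n0 ≤ n := by
      have : (n0 : ℝ) ≤ n := by
        have h4 : (n1 : ℝ) ≤ n := by exact_mod_cast h1
        rw [div_le_iff₀ hη] at hNn
        linarith
      exact_mod_cast this
    obtain ⟨_, h5, h6⟩ := hsz n h3
    have h7 : 0 ≤ ord (n + L) - ord n := by
      have := SG.ord_mono hn (by omega : n ≤ n + L)
      linarith
    have h8 : (ord (n + L) - ord n) ^ 4 ≤ ord n ^ 2 := by
      calc (ord (n + L) - ord n) ^ 4 ≤ K ^ 4 := pow_le_pow_left₀ h7 h2 4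
        _ = 64 ^ 2 / η ^ 4 * (L : ℝ) ^ 4 := by rw [hK]; ring
        _ ≤ 64 ^ 2 / η ^ 4 * Real.log N ^ 4 := by gcongr
        _ ≤ 64 ^ 2 / η ^ 4 * (c * N) := by gcongr
        _ = η * N / 4 := by rw [hc]; field_simp
        _ ≤ n := hn1a.trans (by exact_mod_cast h1)
        _ ≤ ord n ^ 2 := h5
    have h9 : (ord (n + L) - ord n) ^ 2 ≤ ord n := by
      by_contra hlt
      push Not at hlt
      have : ord n ^ 2 < ((ord (n + L) - ord n) ^ 2) ^ 2 :=
        pow_lt_pow_left₀ hlt (by linarith) (by norm_num)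
      have e : ((ord (n + L) - ord n) ^ 2) ^ 2 = (ord (n + L) - ord n) ^ 4 := by ring
      rw [e] at this
      linarith
    linarith
  refine hsub.trans ((cn_union _ _ _).trans ?_)
  have h2 : cn N {n | K < ord (n + L) - ord n} * K ≤ L * ord (N + L) := by
    refine le_trans ?_ (sum_span N L)
    rw [cn_eq]
    calc ((((Finset.Icc 1 N).filter fun n => K < ord (n + L) - ord n).card : ℝ)) * K =
        ∑ n ∈ (Finset.Icc 1 N).filter fun n => K < ord (n + L) - ord n, K := by
          rw [Finset.sum_const, nsmul_eq_mul]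
      _ ≤ ∑ n ∈ (Finset.Icc 1 N).filter fun n => K < ord (n + L) - ord n, (ord (n + L) - ord n) :=
          Finset.sum_le_sum fun n hn => (Finset.mem_filter.mp hn).2.le
      _ ≤ _ := by
          refine Finset.sum_le_sum_of_subset_of_nonneg (Finset.filter_subset _ _) fun n hn _ => ?_
          have h3 := (Finset.mem_Icc.mp hn).1
          have := SG.ord_mono h3 (by omega : n ≤ n + L)
          linarith
  have h3 : ord (N + L) ≤ 2 * N := by
    have h4 := (hsz (N + L) (by omega)).1
    push_cast at h4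
    linarith
  have h5 : cn N {n | K < ord (n + L) - ord n} ≤ η * N / 4 := by
    have h6 : cn N {n | K < ord (n + L) - ord n} * K ≤ L * (2 * N) :=
      h2.trans (mul_le_mul_of_nonneg_left h3 hLpos.le)
    rw [← le_div_iff₀ hK0] at h6
    refine h6.trans (le_of_eq ?_)
    rw [hK]
    field_simp
    ring
  have h7 := cn_lt N n1
  have h8 : (1 : ℝ) ≤ η * N / 4 := by
    rw [div_le_iff₀ hη] at hN4
    linarith
  linarith

/-- the law fails for few starting points, also after a shift -/
lemma law_few {e : ℝ} {m N s : ℕ} (h : ct (fun n => ∃ x : ℝ, e * m <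
      |ct (fun k => Ev x m k) n m - Ph x * m|) 1 (N + s) ≤ e * ((N + s : ℕ) : ℝ)) :
    cn N {n | ¬ Law e m (n + s)} ≤ e * ((N + s : ℕ) : ℝ) := by
  classical
  refine le_trans ?_ h
  rw [cn_eq, ct_eq]
  have hc : (((Finset.Icc 1 N).filter fun n => ¬ Law e m (n + s)).card) ≤
      ((Finset.Ico 1 (1 + (N + s))).filter fun n => ∃ x : ℝ, e * m <
        |ct (fun k => Ev x m k) n m - Ph x * m|).card := by
    refine Finset.card_le_card_of_injOn (fun n => n + s) ?_ (fun a _ b _ h => by simpa using h)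
    intro n hn
    rw [Finset.mem_coe, Finset.mem_filter, Finset.mem_Icc] at hn
    obtain ⟨⟨h1, h2⟩, h3⟩ := hn
    simp only [Finset.coe_filter, Set.mem_setOf_eq, Finset.mem_Ico]
    refine ⟨⟨by omega, by omega⟩, ?_⟩
    unfold Law at h3
    push Not at h3
    exact h3
  exact_mod_cast hc

lemma Ph_lt (x : ℝ) : Ph x < 1 := by
  have h1 : 0 < gs.real (Ioi x) := by
    have h2 : gs (Ioi x) ≠ 0 := by
      intro h0
      have h3 := (ProbabilityTheory.gaussianReal_absolutelyContinuous' 0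
        (one_ne_zero : (1 : NNReal) ≠ 0)) h0
      rw [Real.volume_Ioi] at h3
      exact ENNReal.top_ne_zero h3
    exact ENNReal.toReal_pos h2 (measure_ne_top _ _)
  rw [gs_compl] at h1
  linarith

lemma Ph_pos (x : ℝ) : 0 < Ph x := by
  have h2 : gs (Iic x) ≠ 0 := by
    intro h0
    have h3 := (ProbabilityTheory.gaussianReal_absolutelyContinuous' 0
      (one_ne_zero : (1 : NNReal) ≠ 0)) h0
    rw [Real.volume_Iic] at h3
    exact ENNReal.top_ne_zero h3
  exact ENNReal.toReal_pos h2 (measure_ne_top _ _)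

/-- `{0, …, L}` is cut into `d` consecutive parts and `f` is convex or concave on each part -/
def Shape (d L : ℕ) (f : ℕ → ℝ) : Prop :=
  ∃ b : ℕ → ℕ, Monotone b ∧ b 0 = 0 ∧ b d = L + 1 ∧ ∀ i < d,
    (∀ j, b i ≤ j → j + 2 < b (i + 1) → 2 * f (j + 1) ≤ f j + f (j + 2)) ∨
    (∀ j, b i ≤ j → j + 2 < b (i + 1) → f j + f (j + 2) ≤ 2 * f (j + 1))

theorem shape_main (d : ℕ) (M : ℝ) {η : ℝ} (hη : 0 < η) : ∃ L₀ : ℕ, ∀ L : ℕ, L₀ ≤ L →
    ∀ N : ℕ, 1 ≤ N → (L : ℝ) * Real.log L ≤ Real.log N →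
    cn N {n | ∃ f : ℕ → ℝ, Shape d L f ∧ ∀ j ≤ L, |ord (n + j) - f j| ≤
      M * Real.sqrt (Real.log L) / Real.log (ord n)} ≤ η * N := by
  classical
  rcases Nat.eq_zero_or_pos d with hd | hd
  · refine ⟨0, fun L _ N hN _ => ?_⟩
    have h0 : cn N {n | ∃ f : ℕ → ℝ, Shape d L f ∧ ∀ j ≤ L, |ord (n + j) - f j| ≤
        M * Real.sqrt (Real.log L) / Real.log (ord n)} ≤ cn N ∅ := by
      refine cn_mono fun n _ _ hn => ?_
      obtain ⟨f, ⟨b, _, hb0, hbd, _⟩, _⟩ := hn
      rw [hd] at hbd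
      omega
    rw [Pool.Agent.R846.UL.cn_empty] at h0
    exact h0.trans (by positivity)
  have hdr : (0 : ℝ) < d := by exact_mod_cast hd
  have hpi := Real.pi_gt_three
  have hpi4 := Real.pi_lt_four
  obtain ⟨C, hC⟩ : ∃ C : ℝ, C = 5 * |M| + 5 := ⟨_, rfl⟩
  obtain ⟨e, he⟩ : ∃ e : ℝ, e = min (min (Ph 1 / 2) ((1 - Ph (1 + 4 * C)) / 2))
    (min 1 (η / (16 * d))) := ⟨_, rfl⟩
  have hp1 := Ph_pos 1
  have hp2 := Ph_lt (1 + 4 * C)
  have he0 : 0 < e := by
    rw [he]
    refine lt_min (lt_min (by linarith) (by linarith)) (lt_min one_pos (by positivity))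
  have he1 : e < Ph 1 := by
    have : e ≤ Ph 1 / 2 := by rw [he]; exact (min_le_left _ _).trans (min_le_left _ _)
    linarith
  have he2 : e < 1 - Ph (1 + 4 * C) := by
    have : e ≤ (1 - Ph (1 + 4 * C)) / 2 := by
      rw [he]; exact (min_le_left _ _).trans (min_le_right _ _)
    linarith
  have he3 : e ≤ 1 := by rw [he]; exact (min_le_right _ _).trans (min_le_left _ _)
  have he4 : e ≤ η / (16 * d) := by rw [he]; exact (min_le_right _ _).trans (min_le_right _ _)
  obtain ⟨r0, hr0⟩ := (quenched e 1 he0 he3 one_pos le_rfl).exists_forall_of_atTop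
  obtain ⟨N0, hN0⟩ := span (by positivity : 0 < η / 4)
  obtain ⟨n0, hn0, hsz⟩ := ord_size
  obtain ⟨N1, hN1⟩ := exists_nat_ge (4 * n0 / η)
  refine ⟨max (max (3 * d * (r0 + 3)) (36 * d ^ 2)) (max (max N0 N1) 3), fun L hL N hN hLN => ?_⟩
  have hL1 : 3 * d * (r0 + 3) ≤ L := ((le_max_left _ _).trans (le_max_left _ _)).trans hL
  have hL2 : 36 * d ^ 2 ≤ L := ((le_max_right _ _).trans (le_max_left _ _)).trans hL
  have hL3 : N0 ≤ L := (((le_max_left _ _).trans (le_max_left _ _)).trans (le_max_right _ _)).trans hL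
  have hL4 : N1 ≤ L := (((le_max_right _ _).trans (le_max_left _ _)).trans (le_max_right _ _)).trans hL
  have hL5 : 3 ≤ L := ((le_max_right _ _).trans (le_max_right _ _)).trans hL
  have hLr : (3 : ℝ) ≤ L := by exact_mod_cast hL5
  have hlogL : 1 ≤ Real.log L := by
    rw [Real.le_log_iff_exp_le (by linarith)]
    have := Real.exp_one_lt_d9
    linarith
  have hLlogN : (L : ℝ) ≤ Real.log N := by nlinarith
  have hNpos : (0 : ℝ) < N := by exact_mod_cast hN
  have hLNr : (L : ℝ) ≤ N := by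
    have := Real.log_le_sub_one_of_pos hNpos
    linarith
  have hLNn : L ≤ N := by exact_mod_cast hLNr
  obtain ⟨m, hm⟩ : ∃ m : ℕ, m = (L + 1) / (3 * d) := ⟨_, rfl⟩
  have hm1 : 3 * m * d ≤ L + 1 := by
    have := Nat.div_mul_le_self (L + 1) (3 * d)
    rw [← hm] at this
    calc 3 * m * d = m * (3 * d) := by ring
      _ ≤ L + 1 := this
  have hm2 : L + 1 < 3 * d * (m + 1) := by
    have := Nat.lt_mul_div_succ (L + 1) (by positivity : 0 < 3 * d)
    rw [← hm] at this
    exact this
  have hmr : r0 + 2 ≤ m := by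
    rw [hm, Nat.le_div_iff_mul_le (by positivity)]
    calc (r0 + 2) * (3 * d) ≤ 3 * d * (r0 + 3) := by nlinarith
      _ ≤ L := hL1
      _ ≤ L + 1 := by omega
  have hm0 : 0 < m := by omega
  have hmpos : (0 : ℝ) < m := by exact_mod_cast hm0
  have hmL : m ≤ L := by nlinarith
  have hmm : L ≤ m ^ 2 := by
    have h1 : L < 6 * d * m := by nlinarith
    have h2 : L * L ≤ (6 * d * m) * (6 * d * m) := by nlinarith
    have h3 : 36 * d ^ 2 * L ≤ L * L := Nat.mul_le_mul_right _ hL2
    have h4 : (6 * d * m) * (6 * d * m) = 36 * d ^ 2 * m ^ 2 := by ring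
    have h5 : 36 * d ^ 2 * L ≤ 36 * d ^ 2 * m ^ 2 := by omega
    exact Nat.le_of_mul_le_mul_left h5 (by positivity)
  have hlogm : Real.log L ≤ 2 * Real.log m := by
    have h1 : (L : ℝ) ≤ (m : ℝ) ^ 2 := by exact_mod_cast hmm
    calc Real.log L ≤ Real.log ((m : ℝ) ^ 2) := Real.log_le_log (by linarith) h1
      _ = 2 * Real.log m := by rw [Real.log_pow]; norm_num
  have hlogm0 : 1 / 2 ≤ Real.log m := by linarith
  have hlm1 : Real.sqrt (Real.log L) ≤ 5 * lm m := by
    unfold lm
    have h1 : Real.sqrt (Real.log L) ≤ Real.sqrt (2 * Real.log m) := Real.sqrt_le_sqrt hlogm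
    have h2 : Real.sqrt (2 * Real.log m) ≤ 3 / 2 * Real.sqrt (Real.log m) := by
      rw [Real.sqrt_le_left (by positivity), mul_pow, Real.sq_sqrt (by linarith)]
      nlinarith
    refine (h1.trans h2).trans ?_
    have h3 : Real.pi < 3.15 := Real.pi_lt_d2
    have h4 : 0 ≤ Real.sqrt (Real.log m) := Real.sqrt_nonneg _
    rw [← mul_div_assoc, le_div_iff₀ Real.pi_pos]
    nlinarith
  have hlm2 : 1 ≤ 5 * lm m := by
    refine le_trans ?_ hlm1
    rw [Real.one_le_sqrt]
    exact hlogL
  obtain ⟨E, hE⟩ : ∃ E : ℝ, E = |M| * Real.sqrt (Real.log L) + 1 := ⟨_, rfl⟩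
  have hEC : E ≤ C * lm m := by
    rw [hE, hC]
    have h1 : |M| * Real.sqrt (Real.log L) ≤ |M| * (5 * lm m) :=
      mul_le_mul_of_nonneg_left hlm1 (abs_nonneg _)
    nlinarith
  have hκ : ∀ n, n0 ≤ n → M * Real.sqrt (Real.log L) / Real.log (ord n) *
      ((Real.log (ord n) + 1) / (2 * Real.pi)) ≤ |M| * Real.sqrt (Real.log L) ∧
      0 < (Real.log (ord n) + 1) / (2 * Real.pi) := by
    intro n hn
    have h3 := (hsz n hn).2.2
    have h1 : 1 ≤ Real.log (ord n) := by
      rw [Real.le_log_iff_exp_le (by linarith)]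
      have := Real.exp_one_lt_d9
      linarith
    refine ⟨?_, by positivity⟩
    have h2 : M * Real.sqrt (Real.log L) ≤ |M| * Real.sqrt (Real.log L) :=
      mul_le_mul_of_nonneg_right (le_abs_self _) (Real.sqrt_nonneg _)
    have h4 : 0 ≤ |M| * Real.sqrt (Real.log L) := by positivity
    have h5 : (Real.log (ord n) + 1) / (Real.log (ord n) * (2 * Real.pi)) ≤ 1 := by
      rw [div_le_one (by positivity)]
      nlinarith
    calc M * Real.sqrt (Real.log L) / Real.log (ord n) * ((Real.log (ord n) + 1) / (2 * Real.pi)) =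
        M * Real.sqrt (Real.log L) * ((Real.log (ord n) + 1) / (Real.log (ord n) * (2 * Real.pi))) := by
          field_simp
      _ ≤ |M| * Real.sqrt (Real.log L) * ((Real.log (ord n) + 1) / (Real.log (ord n) * (2 * Real.pi))) :=
          mul_le_mul_of_nonneg_right h2 (by positivity)
      _ ≤ |M| * Real.sqrt (Real.log L) * 1 := mul_le_mul_of_nonneg_left h5 h4
      _ = _ := mul_one _
  -- the exceptional sets
  have hsub : cn N {n | ∃ f : ℕ → ℝ, Shape d L f ∧ ∀ j ≤ L, |ord (n + j) - f j| ≤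
      M * Real.sqrt (Real.log L) / Real.log (ord n)} ≤
      cn N (({n | n < n0} ∪ {n | ord n < (ord (n + L) - ord n) ^ 2}) ∪
        ⋃ i ∈ Finset.range d, ({n | ¬ Law e m (n + 3 * m * i)} ∪
          {n | ¬ Law e m (n + (3 * m * i + m))})) := by
    refine cn_mono fun n hn hnN hb => ?_
    by_contra hcon
    rw [Set.mem_union, Set.mem_union, not_or, not_or] at hcon
    obtain ⟨⟨c1, c2⟩, c3⟩ := hcon
    simp only [Set.mem_setOf_eq, not_lt] at c1 c2
    simp only [Set.mem_iUnion, not_exists, Finset.mem_range, Set.mem_union, Set.mem_setOf_eq,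
      not_or, not_not] at c3
    obtain ⟨f, ⟨b, hbm, hb0, hbd, hsh⟩, hf⟩ := hb
    obtain ⟨i, hi, hb1, hb2⟩ := pieces hd hb0 (by rw [hbd]; exact hm1)
    obtain ⟨hP, hQ⟩ := c3 i hi
    have hbi : b (i + 1) ≤ L + 1 := by rw [← hbd]; exact hbm hi
    obtain ⟨hκ1, hκ2⟩ := hκ n c1
    set κ := (Real.log (ord n) + 1) / (2 * Real.pi) with hκd
    have h3i : 3 * m * (i + 1) = 3 * m * i + 3 * m := by ring
    have hlow := hsz n c1
    refine two_blocks hm0 hEC he1 he2 hP (by rw [add_assoc]; exact hQ)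
      (fun j => WW n + (f (3 * m * i + j) - ord n) * κ) ?_ ?_
    · intro j hj
      have hjL : 3 * m * i + j ≤ L := by omega
      have e1 : n + 3 * m * i + j = n + (3 * m * i + j) := by ring
      rw [e1]
      have hmono : ord n ≤ ord (n + (3 * m * i + j)) := SG.ord_mono hn (by omega)
      have hmono2 : ord (n + (3 * m * i + j)) ≤ ord (n + L) := SG.ord_mono (by omega) (by omega)
      have hsq : (ord (n + (3 * m * i + j)) - ord n) ^ 2 ≤ ord n := by
        refine le_trans ?_ c2
        exact pow_le_pow_left₀ (by linarith) (by linarith) 2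
      have h1 := unf_lin (by linarith : 0 < ord n) hmono hsq
      have h2 := hf _ hjL
      have h3 : |(ord (n + (3 * m * i + j)) - f (3 * m * i + j)) * κ| ≤
          |M| * Real.sqrt (Real.log L) := by
        rw [abs_mul, abs_of_pos hκ2]
        exact (mul_le_mul_of_nonneg_right h2 hκ2.le).trans hκ1
      have e2 : WW (n + (3 * m * i + j)) - (WW n + (f (3 * m * i + j) - ord n) * κ) =
          (WW (n + (3 * m * i + j)) - (WW n + (ord (n + (3 * m * i + j)) - ord n) * κ)) +
          (ord (n + (3 * m * i + j)) - f (3 * m * i + j)) * κ := by ring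
      rw [e2, hE]
      have h4 : |WW (n + (3 * m * i + j)) - (WW n + (ord (n + (3 * m * i + j)) - ord n) * κ)| ≤ 1 := h1
      exact (abs_add_le _ _).trans (by linarith)
    · rcases hsh i hi with hs | hs
      · left
        intro j hj
        have h1 := hs (3 * m * i + j) (by omega) (by omega)
        have e1 : 3 * m * i + (j + 1) = 3 * m * i + j + 1 := by ring
        have e2 : 3 * m * i + (j + 2) = 3 * m * i + j + 2 := by ring
        rw [e1, e2]
        nlinarith
      · right
        intro j hj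
        have h1 := hs (3 * m * i + j) (by omega) (by omega)
        have e1 : 3 * m * i + (j + 1) = 3 * m * i + j + 1 := by ring
        have e2 : 3 * m * i + (j + 2) = 3 * m * i + j + 2 := by ring
        rw [e1, e2]
        nlinarith
  have hlaw : ∀ s ≤ L, cn N {n | ¬ Law e m (n + s)} ≤ 2 * e * N := by
    intro s hs
    have h1 := hr0 m (by omega) (N + s) (by omega) (by
      have h2 : (m : ℝ) * Real.log m ≤ L * Real.log L := by
        have h3 : (m : ℝ) ≤ L := by exact_mod_cast hmL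
        have h4 : Real.log m ≤ Real.log L := Real.log_le_log hmpos h3
        have h5 : 0 ≤ Real.log m := by linarith
        nlinarith
      have h6 : Real.log N ≤ Real.log ((N + s : ℕ) : ℝ) := by
        apply Real.log_le_log hNpos
        push_cast
        have : (0 : ℝ) ≤ s := Nat.cast_nonneg _
        linarith
      linarith) m (by linarith) (by omega)
    refine (law_few h1).trans ?_
    push_cast
    have h2 : (s : ℝ) ≤ N := by exact_mod_cast hs.trans hLNn
    nlinarith
  refine hsub.trans ((cn_union _ _ _).trans ?_)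
  have t1 : cn N ({n | n < n0} ∪ {n | ord n < (ord (n + L) - ord n) ^ 2}) ≤
      η / 4 * N + η / 4 * N := by
    refine (cn_union _ _ _).trans (add_le_add ?_ ?_)
    · refine (cn_lt N n0).trans ?_
      have h1 : 4 * n0 / η ≤ N := hN1.trans ((by exact_mod_cast hL4 : (N1 : ℝ) ≤ L).trans hLNr)
      rw [div_le_iff₀ hη] at h1
      linarith
    · exact hN0 N (hL3.trans hLNn) L (by omega) hLlogN
  have t2 : cn N (⋃ i ∈ Finset.range d, ({n | ¬ Law e m (n + 3 * m * i)} ∪
      {n | ¬ Law e m (n + (3 * m * i + m))})) ≤ η / 4 * N := by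
    refine (cn_biUnion N _ _).trans ?_
    calc ∑ i ∈ Finset.range d, cn N ({n | ¬ Law e m (n + 3 * m * i)} ∪
        {n | ¬ Law e m (n + (3 * m * i + m))}) ≤ ∑ i ∈ Finset.range d, (4 * e * N) := by
          refine Finset.sum_le_sum fun i hi => (cn_union _ _ _).trans ?_
          rw [Finset.mem_range] at hi
          have h3 : 3 * m * (i + 1) ≤ 3 * m * d := Nat.mul_le_mul_left _ hi
          have h4 : 3 * m * (i + 1) = 3 * m * i + 3 * m := by ring
          have h1 := hlaw (3 * m * i) (by omega)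
          have h2 := hlaw (3 * m * i + m) (by omega)
          linarith
      _ = d * (4 * e * N) := by rw [Finset.sum_const, Finset.card_range, nsmul_eq_mul]
      _ ≤ d * (4 * (η / (16 * d)) * N) := by gcongr
      _ = η / 4 * N := by field_simp; ring
  have : 0 < η * N := by positivity
  linarith

end Pool.Agent.R846.SP
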