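import Pool.Agent.R846.SP.B

/-! # Decimation of a linear recurrence -/

set_option autoImplicit false

open Filter Topology Set Polynomial

namespace Pool.Agent.R846.SP

open Pool.Agent.Y743.LR (sh sh_pow act act_apply act_mul act_add dif act_X_sub_one pl act_pl pl_ne)

lemma act_comb {ι : Type*} [Fintype ι] (a : ι → ℝ) (u : ι → ℕ) (f : ℕ → ℝ) (n : ℕ) :
    act (∑ i, a i • (X : ℝ[X]) ^ (u i)) f n = ∑ i, a i * f (n + u i) := by
  unfold act
  rw [map_sum, LinearMap.sum_apply, Finset.sum_apply]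
  refine Finset.sum_congr rfl fun j _ => ?_
  rw [map_smul, map_pow, aeval_X, LinearMap.smul_apply, Pi.smul_apply, sh_pow, smul_eq_mul]

/-- **decimation**: the terms of a linear recurrent sequence along a progression satisfy a linear
recurrence of the same order -/
theorem decim {q : ℝ[X]} (hq : q ≠ 0) {K A : ℕ} (hK : q.natDegree ≤ K) {H : ℕ → ℝ}
    (hH : ∀ j, j + K ≤ A → act q H j = 0) {r : ℕ} (hr : 1 ≤ r) :
    ∃ a : Fin (K + 1) → ℝ, a ≠ 0 ∧ ∀ n, n + K * (r + 1) ≤ A → ∑ i : Fin (K + 1), a i * H (n + i * r) = 0 := by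
  classical
  obtain ⟨qm, hqm⟩ : ∃ qm : ℝ[X], qm = q * C q.leadingCoeff⁻¹ := ⟨_, rfl⟩
  have hmon : qm.Monic := by rw [hqm]; exact monic_mul_leadingCoeff_inv hq
  have hlc : q.leadingCoeff⁻¹ ≠ 0 := inv_ne_zero (leadingCoeff_ne_zero.mpr hq)
  have hdeg : qm.natDegree ≤ K := by
    rw [hqm, natDegree_mul_C hlc]
    exact hK
  set T : (Fin (K + 1) → ℝ) →ₗ[ℝ] (Fin K → ℝ) :=
    (LinearMap.pi fun l : Fin K => Polynomial.lcoeff ℝ (l : ℕ)) ∘ₗ (modByMonicHom qm) ∘ₗ
      (Fintype.linearCombination ℝ fun i : Fin (K + 1) => (X : ℝ[X]) ^ ((i : ℕ) * r)) with hT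
  have hker : LinearMap.ker T ≠ ⊥ := by
    apply LinearMap.ker_ne_bot_of_finrank_lt
    rw [Module.finrank_fin_fun, Module.finrank_fin_fun]
    exact Nat.lt_succ_self K
  obtain ⟨a, ha, ha0⟩ := (Submodule.ne_bot_iff _).mp hker
  rw [LinearMap.mem_ker] at ha
  refine ⟨a, ha0, fun n hn => ?_⟩
  obtain ⟨p, hp⟩ : ∃ p : ℝ[X], p = ∑ i, a i • (X : ℝ[X]) ^ ((i : ℕ) * r) := ⟨_, rfl⟩
  have hTa : ∀ l : Fin K, (p %ₘ qm).coeff l = 0 := by
    intro l
    have h1 := congrFun ha l
    rw [hp]
    exact h1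
  have hmod : p %ₘ qm = 0 := by
    ext l
    rw [coeff_zero]
    rcases lt_or_ge l K with hl | hl
    · exact hTa ⟨l, hl⟩
    · apply coeff_eq_zero_of_degree_lt
      refine lt_of_lt_of_le (degree_modByMonic_lt p hmon) ?_
      refine (degree_le_natDegree).trans ?_
      exact_mod_cast hdeg.trans hl
  have hpc : ∀ i : Fin (K + 1), p.coeff ((i : ℕ) * r) = a i := by
    intro i
    rw [hp, finsetSum_coeff, Finset.sum_eq_single i]
    · rw [coeff_smul, coeff_X_pow, if_pos rfl, smul_eq_mul, mul_one]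
    · intro j _ hji
      rw [coeff_smul, coeff_X_pow, if_neg, smul_zero]
      intro h
      apply hji
      have := Nat.eq_of_mul_eq_mul_right (by omega) h
      exact (Fin.ext this).symm
    · intro h
      exact absurd (Finset.mem_univ i) h
  have hp0 : p ≠ 0 := by
    intro h
    apply ha0
    funext i
    have := hpc i
    rw [h, coeff_zero] at this
    exact this.symm
  have hpdeg : p.natDegree ≤ K * r := by
    rw [hp]
    refine natDegree_sum_le_of_forall_le _ _ fun i _ => ?_
    refine (natDegree_smul_le _ _).trans ?_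
    rw [natDegree_X_pow]
    exact Nat.mul_le_mul_right _ (Nat.lt_succ_iff.mp i.isLt)
  obtain ⟨V, hV⟩ := (modByMonic_eq_zero_iff_dvd hmon).mp hmod
  obtain ⟨U, hU⟩ : ∃ U : ℝ[X], U = C q.leadingCoeff⁻¹ * V := ⟨_, rfl⟩
  have hpU : p = U * q := by rw [hV, hqm, hU]; ring
  have hU0 : U ≠ 0 := by
    intro h
    rw [h, zero_mul] at hpU
    exact hp0 hpU
  have hUdeg : U.natDegree ≤ K * r := by
    have h1 := natDegree_mul hU0 hq
    rw [← hpU] at h1
    omega
  have h1 : act p H n = 0 := by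
    rw [hpU, act_mul, act_apply]
    refine Finset.sum_eq_zero fun j hj => ?_
    have h2 : j ≤ K * r := (le_natDegree_of_mem_supp _ hj).trans hUdeg
    have h3 : K * (r + 1) = K * r + K := by ring
    rw [hH (n + j) (by omega), mul_zero]
  rw [hp, act_comb] at h1
  exact h1

/-- a term of a recurrent sequence is bounded by its neighbours on both sides along a progression -/
lemma mid {K A r : ℕ} {a : Fin (K + 1) → ℝ} (ha : a ≠ 0) {H : ℕ → ℝ}
    (h : ∀ n, n + K * (r + 1) ≤ A → ∑ i : Fin (K + 1), a i * H (n + i * r) = 0) {j : ℕ} {B : ℝ}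
    (hj1 : K * (r + 1) ≤ j) (hj2 : j + K * (r + 1) ≤ A)
    (hB : ∀ i, 1 ≤ i → i ≤ K → |H (j + i * r)| ≤ B ∧ |H (j - i * r)| ≤ B) : |H j| ≤ K * B := by
  classical
  obtain ⟨i0, _, hi0⟩ := Finset.exists_max_image (Finset.univ : Finset (Fin (K + 1)))
    (fun i => |a i|) ⟨0, Finset.mem_univ _⟩
  have ha0 : 0 < |a i0| := by
    rw [abs_pos]
    intro h0
    apply ha
    funext i
    have := hi0 i (Finset.mem_univ i)
    rw [h0, abs_zero] at this
    exact abs_eq_zero.mp (le_antisymm this (abs_nonneg _))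
  have hK1 : K * (r + 1) = K * r + K := by ring
  have hi0K : (i0 : ℕ) ≤ K := Nat.lt_succ_iff.mp i0.isLt
  have hi0r : (i0 : ℕ) * r ≤ K * r := Nat.mul_le_mul_right _ hi0K
  have h1 := h (j - i0 * r) (by omega)
  rw [← Finset.add_sum_erase _ _ (Finset.mem_univ i0)] at h1
  have e0 : j - i0 * r + i0 * r = j := by omega
  rw [e0] at h1
  have h2 : |∑ i ∈ Finset.univ.erase i0, a i * H (j - i0 * r + i * r)| ≤
      ∑ i ∈ Finset.univ.erase i0, |a i0| * B := by
    refine (Finset.abs_sum_le_sum_abs _ _).trans (Finset.sum_le_sum fun i hi => ?_)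
    rw [abs_mul]
    have hne : (i : ℕ) ≠ i0 := fun h => (Finset.mem_erase.mp hi).1 (Fin.ext h)
    have hiK : (i : ℕ) ≤ K := Nat.lt_succ_iff.mp i.isLt
    have h3 : |H (j - i0 * r + i * r)| ≤ B := by
      rcases lt_or_gt_of_ne hne with hlt | hgt
      · have e1 : j - (i0 : ℕ) * r + i * r = j - ((i0 : ℕ) - i) * r := by
          rw [Nat.sub_mul]
          have : (i : ℕ) * r ≤ i0 * r := Nat.mul_le_mul_right _ hlt.le
          omega
        rw [e1]
        exact (hB _ (by omega) (by omega)).2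
      · have e1 : j - (i0 : ℕ) * r + i * r = j + ((i : ℕ) - i0) * r := by
          rw [Nat.sub_mul]
          have : (i0 : ℕ) * r ≤ i * r := Nat.mul_le_mul_right _ hgt.le
          omega
        rw [e1]
        exact (hB _ (by omega) (by omega)).1
    exact mul_le_mul (hi0 i (Finset.mem_univ i)) h3 (abs_nonneg _) (abs_nonneg _)
  rw [Finset.sum_const, Finset.card_erase_of_mem (Finset.mem_univ _), Finset.card_univ,
    Fintype.card_fin, Nat.add_sub_cancel, nsmul_eq_mul] at h2
  have h4 : |a i0| * |H j| ≤ |a i0| * (K * B) := by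
    rw [← abs_mul]
    have h5 : a i0 * H j = -∑ i ∈ Finset.univ.erase i0, a i * H (j - i0 * r + i * r) := by linarith
    rw [h5, abs_neg]
    calc _ ≤ (K : ℝ) * (|a i0| * B) := h2
      _ = |a i0| * (K * B) := by ring
  exact le_of_mul_le_mul_left h4 ha0

/-- a good common difference -/
lemma pick {K ρ : ℕ} (hK : 1 ≤ K) (Z : Finset ℕ) (j : ℕ) (h : 2 * K * Z.card < ρ)
    (hj : K * ρ ≤ j) : ∃ r, 1 ≤ r ∧ r ≤ ρ ∧ ∀ i, 1 ≤ i → i ≤ K → j + i * r ∉ Z ∧ j - i * r ∉ Z := by
  classical
  by_contra hcon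
  push Not at hcon
  have hsub : Finset.Icc 1 ρ ⊆ (Finset.Icc 1 K).biUnion fun i =>
      ((Finset.Icc 1 ρ).filter fun r => j + i * r ∈ Z) ∪
      ((Finset.Icc 1 ρ).filter fun r => j - i * r ∈ Z) := by
    intro r hr
    obtain ⟨h1, h2⟩ := Finset.mem_Icc.mp hr
    obtain ⟨i, hi1, hi2, hi3⟩ := hcon r h1 h2
    rw [Finset.mem_biUnion]
    refine ⟨i, Finset.mem_Icc.mpr ⟨hi1, hi2⟩, ?_⟩
    rw [Finset.mem_union, Finset.mem_filter, Finset.mem_filter]
    by_cases h3 : j + i * r ∈ Z
    · exact Or.inl ⟨hr, h3⟩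
    · exact Or.inr ⟨hr, hi3 h3⟩
  have hcard := Finset.card_le_card hsub
  rw [Nat.card_Icc, Nat.add_sub_cancel] at hcard
  have h2 : ((Finset.Icc 1 K).biUnion fun i =>
      ((Finset.Icc 1 ρ).filter fun r => j + i * r ∈ Z) ∪
      ((Finset.Icc 1 ρ).filter fun r => j - i * r ∈ Z)).card ≤ K * (2 * Z.card) := by
    refine (Finset.card_biUnion_le).trans ?_
    calc ∑ i ∈ Finset.Icc 1 K, (((Finset.Icc 1 ρ).filter fun r => j + i * r ∈ Z) ∪
        ((Finset.Icc 1 ρ).filter fun r => j - i * r ∈ Z)).card ≤ ∑ i ∈ Finset.Icc 1 K, 2 * Z.card := by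
          refine Finset.sum_le_sum fun i hi => (Finset.card_union_le _ _).trans ?_
          obtain ⟨hi1, hi2⟩ := Finset.mem_Icc.mp hi
          have a1 : ((Finset.Icc 1 ρ).filter fun r => j + i * r ∈ Z).card ≤ Z.card := by
            refine Finset.card_le_card_of_injOn (fun r => j + i * r) ?_ ?_
            · intro r hr
              exact (Finset.mem_filter.mp hr).2
            · intro r _ r' _ hrr
              have : i * r = i * r' := by
                have h4 : j + i * r = j + i * r' := hrr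
                omega
              exact Nat.eq_of_mul_eq_mul_left (by omega) this
          have a2 : ((Finset.Icc 1 ρ).filter fun r => j - i * r ∈ Z).card ≤ Z.card := by
            refine Finset.card_le_card_of_injOn (fun r => j - i * r) ?_ ?_
            · intro r hr
              exact (Finset.mem_filter.mp hr).2
            · intro r hr r' hr' hrr
              have b1 := (Finset.mem_Icc.mp (Finset.mem_filter.mp hr).1).2
              have b2 := (Finset.mem_Icc.mp (Finset.mem_filter.mp hr').1).2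
              have b3 : i * r ≤ K * ρ := Nat.mul_le_mul hi2 b1
              have b4 : i * r' ≤ K * ρ := Nat.mul_le_mul hi2 b2
              have : i * r = i * r' := by
                have h4 : j - i * r = j - i * r' := hrr
                omega
              exact Nat.eq_of_mul_eq_mul_left (by omega) this
          omega
      _ = K * (2 * Z.card) := by
          rw [Finset.sum_const, Nat.card_Icc, Nat.add_sub_cancel, smul_eq_mul]
  have h3 : K * (2 * Z.card) = 2 * K * Z.card := by ring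
  omega

end Pool.Agent.R846.SP
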