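import Pool.Agent.R846.SP.C

/-! # The theorem on linear recurrences -/

set_option autoImplicit false

open Filter Topology Set Polynomial MeasureTheory

namespace Pool.Agent.R846.SP

open SG (ord NZ)
open Pool.Agent.R321.QA (ct ct_eq ct_le ct_nonneg ct_mono ct_sum ct_not quenched)
open Pool.Agent.Y743.CL (gs Ph Ph_mono Ph_le_one Ph_nonneg lm lm_nonneg Ev unf_hi gs_bot gs_top gs_compl Ph_lip)
open Pool.Agent.R846.UL (cn cn_mono cn_union cn_lt cn_biUnion cn_fin cn_nonneg ordlog cn_eq)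
open Pool.Agent.Y743.LR (sh sh_pow act act_apply act_mul act_add dif act_X_sub_one pl act_pl pl_ne)

/-- the starting points with an exceptional sum in one block -/
lemma zcount {e Kx : ℝ} {m p : ℕ} (h : Law e m p) :
    ∑ t ∈ Finset.range m, (if ¬ (|WW (p + t + m) - WW (p + t) - m| ≤ Kx * lm m) then (1 : ℝ) else 0) ≤
      ((1 - Ph Kx) + Ph (-Kx) + 2 * e) * m := by
  classical
  have h1 := (abs_le.mp (h Kx)).1
  have h2 := (abs_le.mp (h (-Kx))).2
  have h3 := ct_not (fun k => Ev Kx m k) p m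
  have h4 : ct (fun k => ¬ Ev Kx m k) p m ≤ (1 - Ph Kx + e) * m := by linarith
  have h5 : ct (fun k => Ev (-Kx) m k) p m ≤ (Ph (-Kx) + e) * m := by linarith
  rw [ct_sum] at h4 h5
  have h6 : ∑ t ∈ Finset.range m, (if ¬ (|WW (p + t + m) - WW (p + t) - m| ≤ Kx * lm m)
      then (1 : ℝ) else 0) ≤ ∑ t ∈ Finset.range m, ((if ¬ Ev Kx m (p + t) then (1 : ℝ) else 0) +
        (if Ev (-Kx) m (p + t) then (1 : ℝ) else 0)) := by
    refine Finset.sum_le_sum fun t _ => ?_
    by_cases g : |WW (p + t + m) - WW (p + t) - m| ≤ Kx * lm m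
    · rw [if_neg (not_not.mpr g)]
      positivity
    · rw [if_pos g]
      by_cases g1 : Ev Kx m (p + t)
      · have g2 : Ev (-Kx) m (p + t) := by
          rw [Ev_iff] at g1 ⊢
          by_contra g3
          push Not at g3
          apply g
          rw [abs_le]
          constructor <;> linarith
        rw [if_pos g2]
        split_ifs <;> norm_num
      · rw [if_pos g1]
        split_ifs <;> norm_num
  rw [Finset.sum_add_distrib] at h6
  linarith

/-- **no linear recurrent sequence is near the ordinates along three blocks with the normal law** -/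
theorem no_rec {e C E Kx : ℝ} {m p K : ℕ} (hK : 1 ≤ K) (hm : 4 * K < m) (hE : E ≤ C * lm m)
    (hθ : (1 - Ph Kx) + Ph (-Kx) + 2 * e ≤ 1 / (25 * (K : ℝ) ^ 2))
    (he2 : e < 1 - Ph (K * (Kx + 2 * C) + 2 * C))
    (hP : Law e m p) (hQ : Law e m (p + m)) (hR : Law e m (p + (m + m)))
    (F : ℕ → ℝ) (hF : ∀ j < 4 * m, |WW (p + j) - F j| ≤ E)
    {q : ℝ[X]} (hq : q ≠ 0) (hqK : q.natDegree ≤ K)
    (hH : ∀ j, j + K ≤ 3 * m → act q (fun j => F (j + m) - F j - m) j = 0) : False := by
  classical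
  have hm0 : 0 < m := by omega
  have hmr : (0 : ℝ) < m := by exact_mod_cast hm0
  have hKr : (1 : ℝ) ≤ K := by exact_mod_cast hK
  obtain ⟨Z, hZ⟩ : ∃ Z : Finset ℕ, Z = (Finset.range (m + (m + m))).filter
    (fun t => ¬ (|WW (p + t + m) - WW (p + t) - m| ≤ Kx * lm m)) := ⟨_, rfl⟩
  have hZc : (Z.card : ℝ) ≤ 3 * (1 / (25 * (K : ℝ) ^ 2)) * m := by
    have e1 : (Z.card : ℝ) = ∑ t ∈ Finset.range (m + (m + m)),
        (if ¬ (|WW (p + t + m) - WW (p + t) - m| ≤ Kx * lm m) then (1 : ℝ) else 0) := by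
      rw [hZ, Finset.card_filter]
      push_cast
      rfl
    rw [e1, Finset.sum_range_add, Finset.sum_range_add]
    have a1 := zcount (Kx := Kx) hP
    have a2 := zcount (Kx := Kx) hQ
    have a3 := zcount (Kx := Kx) hR
    have s2 : ∀ t, p + (m + t) = p + m + t := fun t => by ring
    have s4 : ∀ t, p + (m + m) + t = p + m + m + t := fun t => by ring
    have s5 : ∀ t, p + m + (m + t) = p + m + m + t := fun t => by ring
    simp only [s4] at a3
    simp only [s2, s5]
    have a4 : ((1 - Ph Kx) + Ph (-Kx) + 2 * e) * m ≤ 1 / (25 * (K : ℝ) ^ 2) * m :=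
      mul_le_mul_of_nonneg_right hθ hmr.le
    linarith
  obtain ⟨ρ, hρ⟩ : ∃ ρ : ℕ, ρ = m / (2 * K) := ⟨_, rfl⟩
  have hρ1 : 2 * K * ρ ≤ m := by
    rw [hρ]
    exact Nat.mul_div_le m (2 * K)
  have hρ2 : m < 2 * K * (ρ + 1) := by
    rw [hρ]
    exact Nat.lt_mul_div_succ m (by omega)
  have hZρ : 2 * K * Z.card < ρ := by
    have h1 : (2 * K * Z.card : ℝ) < ρ := by
      have h2 : (m : ℝ) < 2 * K * (ρ + 1) := by exact_mod_cast hρ2
      have h3 : (4 : ℝ) * K < m := by exact_mod_cast hm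
      have h4 : 2 * (K : ℝ) * Z.card ≤ 2 * K * (3 * (1 / (25 * (K : ℝ) ^ 2)) * m) :=
        mul_le_mul_of_nonneg_left hZc (by positivity)
      have h5 : 2 * (K : ℝ) * (3 * (1 / (25 * (K : ℝ) ^ 2)) * m) = 6 / 25 * (m / K) := by
        field_simp
        norm_num
      have h6 : m / (K : ℝ) < 2 * (ρ + 1) := by
        rw [div_lt_iff₀ (by linarith)]
        linarith
      have h7 : 4 < m / (K : ℝ) := by
        rw [lt_div_iff₀ (by linarith)]
        linarith
      linarith
    exact_mod_cast h1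
  have hKρ : K * ρ ≤ m := by nlinarith
  have hgood : ∀ t, t < 3 * m → t ∉ Z → |F (t + m) - F t - m| ≤ (Kx + 2 * C) * lm m := by
    intro t ht htZ
    rw [hZ, Finset.mem_filter, not_and, not_not, Finset.mem_range] at htZ
    have h1 := abs_le.mp (htZ (by omega))
    have h2 := abs_le.mp (hF (t + m) (by omega))
    have h3 := abs_le.mp (hF t (by omega))
    rw [← add_assoc] at h2
    rw [abs_le]
    constructor <;> linarith [h1.1, h1.2, h2.1, h2.2, h3.1, h3.2]
  refine law_not hm0 hQ he2 fun i hi => ?_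
  obtain ⟨r, hr1, hr2, hr⟩ := pick hK Z (m + i) hZρ (by omega)
  have hKr1 : K * r ≤ K * ρ := Nat.mul_le_mul_left _ hr2
  have hKr2 : K * (r + 1) = K * r + K := by ring
  have h2Kρ : 2 * (K * ρ) ≤ m := by
    calc 2 * (K * ρ) = 2 * K * ρ := by ring
      _ ≤ m := hρ1
  obtain ⟨a, ha, hrel⟩ := decim hq hqK hH hr1
  have h1 := mid (A := 3 * m) (r := r) (H := fun j => F (j + m) - F j - m) ha hrel (j := m + i)
    (B := (Kx + 2 * C) * lm m) (by omega) (by omega) (by
    intro s hs1 hs2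
    have hsr : s * r ≤ K * r := Nat.mul_le_mul_right _ hs2
    obtain ⟨z1, z2⟩ := hr s hs1 hs2
    exact ⟨hgood _ (by omega) z1, hgood _ (by omega) z2⟩)
  have h2 := (abs_le.mp h1).2
  have h3 := abs_le.mp (hF (m + i + m) (by omega))
  have h4 := abs_le.mp (hF (m + i) (by omega))
  have e1 : p + (m + i + m) = p + m + i + m := by ring
  have e2 : p + (m + i) = p + m + i := by ring
  rw [e1] at h3
  rw [e2] at h4
  have h5 : ((K : ℝ) * (Kx + 2 * C) + 2 * C) * lm m = K * ((Kx + 2 * C) * lm m) + 2 * (C * lm m) := by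
    ring
  rw [h5]
  linarith [h3.1, h3.2, h4.1, h4.2]

/-- on `{0, …, L}` the sequence `y` satisfies a linear recurrence with `k + 1` coefficients -/
def RecSeq (k L : ℕ) (y : ℕ → ℝ) : Prop :=
  ∃ c : Fin (k + 1) → ℝ, c ≠ 0 ∧ ∃ b : ℝ, ∀ j, j + k ≤ L → ∑ i : Fin (k + 1), c i * y (j + i) = b

lemma pl_deg {k : ℕ} (c : Fin (k + 1) → ℝ) : (pl c).natDegree ≤ k := by
  unfold pl
  refine natDegree_sum_le_of_forall_le _ _ fun i _ => ?_
  exact (natDegree_C_mul_X_pow_le _ _).trans (Nat.lt_succ_iff.mp i.isLt)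

theorem rec_main (k : ℕ) (M : ℝ) {η : ℝ} (hη : 0 < η) : ∃ L₀ : ℕ, ∀ L : ℕ, L₀ ≤ L →
    ∀ N : ℕ, 1 ≤ N → (L : ℝ) * Real.log L ≤ Real.log N →
    cn N {n | ∃ y : ℕ → ℝ, RecSeq k L y ∧ ∀ j ≤ L, |ord (n + j) - y j| ≤
      M * Real.sqrt (Real.log L) / Real.log (ord n)} ≤ η * N := by
  classical
  have hpi := Real.pi_gt_three
  have hpi4 := Real.pi_lt_four
  obtain ⟨K, hK⟩ : ∃ K : ℕ, K = k + 1 := ⟨_, rfl⟩
  have hK1 : 1 ≤ K := by omega
  have hKr : (1 : ℝ) ≤ K := by exact_mod_cast hK1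
  obtain ⟨C, hC⟩ : ∃ C : ℝ, C = 5 * |M| + 5 := ⟨_, rfl⟩
  obtain ⟨δ, hδ⟩ : ∃ δ : ℝ, δ = 1 / (25 * (K : ℝ) ^ 2) := ⟨_, rfl⟩
  have hδ0 : 0 < δ := by rw [hδ]; positivity
  obtain ⟨K1, hK1'⟩ := gs_bot (show 0 < δ / 4 by positivity)
  obtain ⟨K2, hK2'⟩ := gs_top (show 0 < δ / 4 by positivity)
  obtain ⟨Kx, hKx⟩ : ∃ Kx : ℝ, Kx = max K1 K2 := ⟨_, rfl⟩
  have hb1 : Ph (-Kx) ≤ δ / 4 := hK1' Kx (by rw [hKx]; exact le_max_left _ _)
  have hb2 : 1 - Ph Kx ≤ δ / 4 := by
    rw [← gs_compl]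
    refine le_trans ?_ (hK2' Kx (by rw [hKx]; exact le_max_right _ _))
    exact measureReal_mono Set.Ioi_subset_Ici_self
  obtain ⟨X1, hX1⟩ : ∃ X1 : ℝ, X1 = K * (Kx + 2 * C) + 2 * C := ⟨_, rfl⟩
  obtain ⟨e, he⟩ : ∃ e : ℝ, e = min (min (δ / 4) ((1 - Ph X1) / 2)) (min 1 (η / 24)) := ⟨_, rfl⟩
  have hp2 := Ph_lt X1
  have he0 : 0 < e := by
    rw [he]
    exact lt_min (lt_min (by positivity) (by linarith)) (lt_min one_pos (by positivity))
  have he1 : e ≤ δ / 4 := by rw [he]; exact (min_le_left _ _).trans (min_le_left _ _)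
  have he2 : e < 1 - Ph X1 := by
    have : e ≤ (1 - Ph X1) / 2 := by
      rw [he]; exact (min_le_left _ _).trans (min_le_right _ _)
    linarith
  have he3 : e ≤ 1 := by rw [he]; exact (min_le_right _ _).trans (min_le_left _ _)
  have he4 : e ≤ η / 24 := by rw [he]; exact (min_le_right _ _).trans (min_le_right _ _)
  obtain ⟨r0, hr0⟩ := (quenched e 1 he0 he3 one_pos le_rfl).exists_forall_of_atTop
  obtain ⟨N0, hN0⟩ := span (by positivity : 0 < η / 4)
  obtain ⟨n0, hn0, hsz⟩ := ord_size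
  obtain ⟨N1, hN1⟩ := exists_nat_ge (4 * n0 / η)
  refine ⟨max (max (4 * (r0 + 4 * K + 4)) 64) (max (max N0 N1) 3), fun L hL N hN hLN => ?_⟩
  have hL1 : 4 * (r0 + 4 * K + 4) ≤ L := ((le_max_left _ _).trans (le_max_left _ _)).trans hL
  have hL2 : 64 ≤ L := ((le_max_right _ _).trans (le_max_left _ _)).trans hL
  have hL3 : N0 ≤ L := (((le_max_left _ _).trans (le_max_left _ _)).trans (le_max_right _ _)).trans hL
  have hL4 : N1 ≤ L := (((le_max_right _ _).trans (le_max_left _ _)).trans (le_max_right _ _)).trans hL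
  have hLr : (64 : ℝ) ≤ L := by exact_mod_cast hL2
  have hlogL : 1 ≤ Real.log L := by
    rw [Real.le_log_iff_exp_le (by linarith)]
    have := Real.exp_one_lt_d9
    linarith
  have hLlogN : (L : ℝ) ≤ Real.log N := by nlinarith
  have hNpos : (0 : ℝ) < N := by exact_mod_cast hN
  have hLNr : (L : ℝ) ≤ N := by
    have := Real.log_le_sub_one_of_pos hNpos
    linarith
  have hLNn : L ≤ N := by exact_mod_cast hLNr
  obtain ⟨m, hm⟩ : ∃ m : ℕ, m = L / 4 := ⟨_, rfl⟩
  have hm1 : 4 * m ≤ L := by omega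
  have hm2 : L < 4 * (m + 1) := by omega
  have hm0 : 0 < m := by omega
  have hmpos : (0 : ℝ) < m := by exact_mod_cast hm0
  have hmL : m ≤ L := by omega
  have hmm : L ≤ m ^ 2 := by
    have h1 : L ≤ 8 * m := by omega
    have h2 : 8 ≤ m := by omega
    nlinarith
  have hlogm : Real.log L ≤ 2 * Real.log m := by
    have h1 : (L : ℝ) ≤ (m : ℝ) ^ 2 := by exact_mod_cast hmm
    calc Real.log L ≤ Real.log ((m : ℝ) ^ 2) := Real.log_le_log (by linarith) h1
      _ = 2 * Real.log m := by rw [Real.log_pow]; norm_num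
  have hlogm0 : 1 / 2 ≤ Real.log m := by linarith
  have hlm1 : Real.sqrt (Real.log L) ≤ 5 * lm m := by
    unfold lm
    have h1 : Real.sqrt (Real.log L) ≤ Real.sqrt (2 * Real.log m) := Real.sqrt_le_sqrt hlogm
    have h2 : Real.sqrt (2 * Real.log m) ≤ 3 / 2 * Real.sqrt (Real.log m) := by
      rw [Real.sqrt_le_left (by positivity), mul_pow, Real.sq_sqrt (by linarith)]
      nlinarith
    refine (h1.trans h2).trans ?_
    have h3 : Real.pi < 3.15 := Real.pi_lt_d2
    have h4 : 0 ≤ Real.sqrt (Real.log m) := Real.sqrt_nonneg _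
    rw [← mul_div_assoc, le_div_iff₀ Real.pi_pos]
    nlinarith
  have hlm2 : 1 ≤ 5 * lm m := by
    refine le_trans ?_ hlm1
    rw [Real.one_le_sqrt]
    exact hlogL
  obtain ⟨E, hE⟩ : ∃ E : ℝ, E = |M| * Real.sqrt (Real.log L) + 1 := ⟨_, rfl⟩
  have hEC : E ≤ C * lm m := by
    rw [hE, hC]
    have h1 : |M| * Real.sqrt (Real.log L) ≤ |M| * (5 * lm m) :=
      mul_le_mul_of_nonneg_left hlm1 (abs_nonneg _)
    nlinarith
  have hκ : ∀ n, n0 ≤ n → M * Real.sqrt (Real.log L) / Real.log (ord n) *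
      ((Real.log (ord n) + 1) / (2 * Real.pi)) ≤ |M| * Real.sqrt (Real.log L) ∧
      0 < (Real.log (ord n) + 1) / (2 * Real.pi) := by
    intro n hn
    have h3 := (hsz n hn).2.2
    have h1 : 1 ≤ Real.log (ord n) := by
      rw [Real.le_log_iff_exp_le (by linarith)]
      have := Real.exp_one_lt_d9
      linarith
    refine ⟨?_, by positivity⟩
    have h2 : M * Real.sqrt (Real.log L) ≤ |M| * Real.sqrt (Real.log L) :=
      mul_le_mul_of_nonneg_right (le_abs_self _) (Real.sqrt_nonneg _)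
    have h4 : 0 ≤ |M| * Real.sqrt (Real.log L) := by positivity
    have h5 : (Real.log (ord n) + 1) / (Real.log (ord n) * (2 * Real.pi)) ≤ 1 := by
      rw [div_le_one (by positivity)]
      nlinarith
    calc M * Real.sqrt (Real.log L) / Real.log (ord n) * ((Real.log (ord n) + 1) / (2 * Real.pi)) =
        M * Real.sqrt (Real.log L) * ((Real.log (ord n) + 1) / (Real.log (ord n) * (2 * Real.pi))) := by
          field_simp
      _ ≤ |M| * Real.sqrt (Real.log L) * ((Real.log (ord n) + 1) / (Real.log (ord n) * (2 * Real.pi))) :=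
          mul_le_mul_of_nonneg_right h2 (by positivity)
      _ ≤ |M| * Real.sqrt (Real.log L) * 1 := mul_le_mul_of_nonneg_left h5 h4
      _ = _ := mul_one _
  -- the exceptional sets
  have hsub : cn N {n | ∃ y : ℕ → ℝ, RecSeq k L y ∧ ∀ j ≤ L, |ord (n + j) - y j| ≤
      M * Real.sqrt (Real.log L) / Real.log (ord n)} ≤
      cn N (({n | n < n0} ∪ {n | ord n < (ord (n + L) - ord n) ^ 2}) ∪
        (({n | ¬ Law e m (n + 0)} ∪ {n | ¬ Law e m (n + m)}) ∪ {n | ¬ Law e m (n + (m + m))})) := by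
    refine cn_mono fun n hn hnN hb => ?_
    by_contra hcon
    rw [Set.mem_union, Set.mem_union, Set.mem_union, Set.mem_union, not_or, not_or, not_or,
      not_or] at hcon
    obtain ⟨⟨c1, c2⟩, ⟨c3, c4⟩, c5⟩ := hcon
    simp only [Set.mem_setOf_eq, not_lt, not_not, add_zero] at c1 c2 c3 c4 c5
    obtain ⟨y, ⟨c, hc, b, hrec⟩, hf⟩ := hb
    obtain ⟨hκ1, hκ2⟩ := hκ n c1
    set κ := (Real.log (ord n) + 1) / (2 * Real.pi) with hκd
    have hlow := hsz n c1
    have hX : (X - 1 : ℝ[X]) ≠ 0 := by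
      have : (X - 1 : ℝ[X]) = X - Polynomial.C 1 := by rw [map_one]
      rw [this]
      exact X_sub_C_ne_zero 1
    refine no_rec (K := K) (Kx := Kx) (q := pl c * (X - 1)) hK1 (by omega) hEC (by
        rw [← hδ]; linarith) (by rw [← hX1]; exact he2) c3 c4 c5
      (fun j => WW n + (y j - ord n) * κ) ?_ (mul_ne_zero (pl_ne hc) hX) ?_ ?_
    · intro j hj
      have hjL : j ≤ L := by omega
      have hmono : ord n ≤ ord (n + j) := SG.ord_mono hn (by omega)
      have hmono2 : ord (n + j) ≤ ord (n + L) := SG.ord_mono (by omega) (by omega)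
      have hsq : (ord (n + j) - ord n) ^ 2 ≤ ord n := by
        refine le_trans ?_ c2
        exact pow_le_pow_left₀ (by linarith) (by linarith) 2
      have h1 := unf_lin (by linarith : 0 < ord n) hmono hsq
      have h2 := hf _ hjL
      have h3 : |(ord (n + j) - y j) * κ| ≤ |M| * Real.sqrt (Real.log L) := by
        rw [abs_mul, abs_of_pos hκ2]
        exact (mul_le_mul_of_nonneg_right h2 hκ2.le).trans hκ1
      have e2 : WW (n + j) - (WW n + (y j - ord n) * κ) =
          (WW (n + j) - (WW n + (ord (n + j) - ord n) * κ)) + (ord (n + j) - y j) * κ := by ring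
      rw [e2, hE]
      have h4 : |WW (n + j) - (WW n + (ord (n + j) - ord n) * κ)| ≤ 1 := h1
      exact (abs_add_le _ _).trans (by linarith)
    · refine (natDegree_mul_le).trans ?_
      have h1 := pl_deg c
      have h2 : (X - 1 : ℝ[X]).natDegree ≤ 1 := by
        have : (X - 1 : ℝ[X]) = X - Polynomial.C 1 := by rw [map_one]
        rw [this, natDegree_X_sub_C]
      omega
    · intro j hj
      rw [act_mul, act_X_sub_one, act_pl]
      unfold dif
      have r1 := hrec (j + 1 + m) (by omega)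
      have r2 := hrec (j + 1) (by omega)
      have r3 := hrec (j + m) (by omega)
      have r4 := hrec j (by omega)
      have e1 : ∀ i : Fin (k + 1), c i * ((WW n + (y (j + i + 1 + m) - ord n) * κ -
          (WW n + (y (j + i + 1) - ord n) * κ) - m) - (WW n + (y (j + i + m) - ord n) * κ -
          (WW n + (y (j + i) - ord n) * κ) - m)) = κ * (c i * y (j + 1 + m + i)) -
          κ * (c i * y (j + 1 + i)) - κ * (c i * y (j + m + i)) + κ * (c i * y (j + i)) := by
        intro i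
        have s1 : j + (i : ℕ) + 1 + m = j + 1 + m + i := by ring
        have s2 : j + (i : ℕ) + 1 = j + 1 + i := by ring
        have s3 : j + (i : ℕ) + m = j + m + i := by ring
        rw [s1, s2, s3]
        ring
      simp only [e1]
      rw [Finset.sum_add_distrib, Finset.sum_sub_distrib, Finset.sum_sub_distrib,
        ← Finset.mul_sum, ← Finset.mul_sum, ← Finset.mul_sum, ← Finset.mul_sum, r1, r2, r3, r4]
      ring
  have hlaw : ∀ s ≤ L, cn N {n | ¬ Law e m (n + s)} ≤ 2 * e * N := by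
    intro s hs
    have h1 := hr0 m (by omega) (N + s) (by omega) (by
      have h2 : (m : ℝ) * Real.log m ≤ L * Real.log L := by
        have h3 : (m : ℝ) ≤ L := by exact_mod_cast hmL
        have h4 : Real.log m ≤ Real.log L := Real.log_le_log hmpos h3
        have h5 : 0 ≤ Real.log m := by linarith
        nlinarith
      have h6 : Real.log N ≤ Real.log ((N + s : ℕ) : ℝ) := by
        apply Real.log_le_log hNpos
        push_cast
        have : (0 : ℝ) ≤ s := Nat.cast_nonneg _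
        linarith
      linarith) m (by linarith) (by omega)
    refine (law_few h1).trans ?_
    push_cast
    have h2 : (s : ℝ) ≤ N := by exact_mod_cast hs.trans hLNn
    nlinarith
  refine hsub.trans ((cn_union _ _ _).trans ?_)
  have t1 : cn N ({n | n < n0} ∪ {n | ord n < (ord (n + L) - ord n) ^ 2}) ≤
      η / 4 * N + η / 4 * N := by
    refine (cn_union _ _ _).trans (add_le_add ?_ ?_)
    · refine (cn_lt N n0).trans ?_
      have h1 : 4 * n0 / η ≤ N := hN1.trans ((by exact_mod_cast hL4 : (N1 : ℝ) ≤ L).trans hLNr)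
      rw [div_le_iff₀ hη] at h1
      linarith
    · exact hN0 N (hL3.trans hLNn) L (by omega) hLlogN
  have t2 : cn N (({n | ¬ Law e m (n + 0)} ∪ {n | ¬ Law e m (n + m)}) ∪
      {n | ¬ Law e m (n + (m + m))}) ≤ η / 4 * N := by
    have u1 := cn_union N ({n | ¬ Law e m (n + 0)} ∪ {n | ¬ Law e m (n + m)})
      {n | ¬ Law e m (n + (m + m))}
    have u2 := cn_union N {n | ¬ Law e m (n + 0)} {n | ¬ Law e m (n + m)}
    have v1 := hlaw 0 (by omega)
    have v2 := hlaw m (by omega)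
    have v3 := hlaw (m + m) (by omega)
    have v4 : 6 * e * N ≤ η / 4 * N := by
      apply mul_le_mul_of_nonneg_right _ hNpos.le
      linarith
    linarith
  have : 0 < η * N := by positivity
  linarith

end Pool.Agent.R846.SP
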